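import Pool.Agent.Lib.MP_5bb951_co.Final

set_option autoImplicit false
set_option linter.unusedSectionVars false
set_option linter.unusedVariables false

open Classical MvPolynomial

namespace Pool.Agent.Lib.MP_5bb951_co

universe u v

variable {P : Type u} [PartialOrder P] [Fintype P] [BoundedOrder P] [GradeOrder ℕ P]
variable {k : Type v} [Field k]

/-- The exactness of the lower half of the dual complex of a poset of odd rank. -/
theorem lower_top [Algebra (ZMod 2) k] [CharP k 2] {c : P → k}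
    (hc : AlgebraicIndependent (ZMod 2) c) (h0 : rk (⊥ : P) = 0) (ht : Thin P)
    (hreg : ∀ z : P, RegProp k z) {m : ℕ} (hm : rk (⊤ : P) = 2 * m + 1) :
    ∀ f ∈ ZZ k (⊤ : P), (∀ F, m ≤ F.card → f F = 0) → dd c f = 0 →
      ∃ g ∈ ZZ k (⊤ : P), dd c g = f := by
  intro f hf hs hdd
  rcases Nat.eq_zero_or_pos m with hm0 | hm0
  · refine ⟨0, Submodule.zero_mem _, ?_⟩
    rw [map_zero]
    ext F
    rw [hs F (by omega)]
    rfl
  have hup := upper_top hc h0 ht hreg hm
  have hs' : ∀ F, m - 1 < F.card → f F = 0 := fun F hF => hs F (by omega)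
  have hmem : f ∈ (ZZ k (⊤ : P)).map (dd c) := by
    rw [← Subspace.forall_mem_dualAnnihilator_apply_eq_zero_iff]
    intro ℓ hℓ
    obtain ⟨q, hq⟩ := exists_dp ℓ
    rw [hq, ← dp_tl (N := m - 1) hs']
    have h1 : nu (⊤ : P) (om c q) = 0 := by
      apply eq_zero_of_dp
      intro p
      rw [← dp_nu, dp_comm, dp_om_dd, ← hq]
      exact (Submodule.mem_dualAnnihilator ℓ).1 hℓ _
        (Submodule.mem_map_of_mem (nu_mem h0 ht p))
    have h2 : nu (⊤ : P) (tl (m - 1) q) = tr (m + 1) (nu (⊤ : P) q) :=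
      nu_tl (M := m) (by omega) q
    obtain ⟨g, gZ, gd⟩ := hup (nu (⊤ : P) (tl (m - 1) q)) (nu_mem h0 ht _) (by
      rw [h2]
      exact Ge_tr _ _) (by
      rw [h2, dd_tr, ← nu_om, h1]
      ext F
      simp [tr])
    obtain ⟨q'', hq''⟩ := ZZ_le_range h0 ht (hreg ⊤) gZ
    obtain ⟨p, hp⟩ := ZZ_le_range h0 ht (hreg ⊤) hf
    rw [← hp, ← dp_nu, ← gd, ← hq'', ← nu_om, dp_nu, hp, dp_om_dd, hdd]
    simp [dp]
  obtain ⟨g2, g2Z, g2d⟩ := hmem
  exact ⟨g2, g2Z, g2d⟩

/-- Lifting a primitive in the dual complex to polynomials. -/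
theorem poly_of_dual [CharP k 2] {c : P → k}
    (h0 : rk (⊥ : P) = 0) (ht : Thin P) {m : ℕ}
    (hm : rk (⊤ : P) = 2 * m + 1) (hreg : RegProp k (⊤ : P))
    {i : ℕ} {p : MvPolynomial P k} (hp : p.IsHomogeneous i)
    {g : Finset P → k} (gZ : g ∈ ZZ k (⊤ : P)) (gd : dd c g = nu (⊤ : P) (hat p)) :
    ∃ q : MvPolynomial P k, q.IsHomogeneous (i - 1) ∧ (i = 0 → q = 0) ∧
      p - (∑ x : P, MvPolynomial.C (c x) * X x) * q ∈ JJ P k (Finset.range (2 * m + 2)) := by
  have hp0 : ∀ F : Finset P, F.card ≠ i → hat p F = 0 := by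
    intro F hF
    simp only [hat]
    apply hp.coeff_eq_zero
    rw [degree_mon]
    exact hF
  have hflag : ∀ Φ : Fl (⊤ : P), Φ.1.card = 2 * m := by
    intro Φ
    have := Φ.2.card
    omega
  obtain ⟨q2, hq2⟩ := ZZ_le_range h0 ht hreg gZ
  set S : Finset (Finset P) := Finset.univ.filter (fun F : Finset P => F.card + 1 = i) with hS
  set q : MvPolynomial P k := ∑ F ∈ S, q2 F • ∏ x ∈ F, X x with hq
  have hhat : ∀ F : Finset P, hat q F = if F.card + 1 = i then q2 F else 0 := by
    intro F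
    simp only [hat, hq]
    rw [coeff_sum]
    have h3 : ∀ G ∈ S, coeff (mon F) (q2 G • ∏ x ∈ G, (X x : MvPolynomial P k)) =
        if G = F then q2 F else 0 := by
      intro G _
      rw [coeff_smul, prod_X_eq, coeff_monomial, smul_eq_mul]
      by_cases h4 : G = F
      · rw [if_pos h4, if_pos (by rw [h4]), h4, mul_one]
      · rw [if_neg h4, if_neg (fun h => h4 (mon_inj h)), mul_zero]
    rw [Finset.sum_congr rfl h3, Finset.sum_ite_eq']
    simp only [hS, Finset.mem_filter, Finset.mem_univ, true_and]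
  have hqh : q.IsHomogeneous (i - 1) := by
    apply IsHomogeneous.sum
    intro F hF
    simp only [hS, Finset.mem_filter, Finset.mem_univ, true_and] at hF
    rw [smul_eq_C_mul]
    apply IsHomogeneous.C_mul
    rw [prod_X_eq]
    apply isHomogeneous_monomial
    rw [degree_mon]
    omega
  refine ⟨q, hqh, ?_, ?_⟩
  · intro hi0
    rw [hq]
    apply Finset.sum_eq_zero
    intro F hF
    simp only [hS, Finset.mem_filter, Finset.mem_univ, true_and] at hF
    omega
  apply mem_JJ_of_dp h0 (by omega)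
  intro f hf
  obtain ⟨f', hf'⟩ := ZZ_le_range h0 ht hreg hf
  rw [← hf', ← dp_nu]
  have h5 : nu (⊤ : P) (hat (p - (∑ x : P, MvPolynomial.C (c x) * X x) * q)) = 0 := by
    rw [hat_sub, hat_om, map_sub, sub_eq_zero, ← gd, ← hq2, ← nu_om]
    have h6 : nu (⊤ : P) (hat p) = nu (⊤ : P) (om c q2) := by
      rw [nu_om, hq2, gd]
    ext G
    rw [nu_apply, nu_apply]
    by_cases hG : G.card + i = 2 * m
    · apply Finset.sum_congr rfl
      intro Φ hΦ
      simp only [Finset.mem_filter, Finset.mem_univ, true_and] at hΦ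
      rw [om_apply, om_apply]
      apply Finset.sum_congr rfl
      intro x hx
      rw [hhat, if_pos]
      rw [Finset.card_erase_of_mem hx, Finset.card_sdiff_of_subset hΦ, hflag]
      have := Finset.card_pos.2 ⟨x, hx⟩
      rw [Finset.card_sdiff_of_subset hΦ, hflag] at this
      omega
    · have h7 := congrFun h6 G
      rw [nu_apply, nu_apply] at h7
      rw [← h7]
      apply Finset.sum_congr rfl
      intro Φ hΦ
      simp only [Finset.mem_filter, Finset.mem_univ, true_and] at hΦ
      have h8 := Finset.card_sdiff_of_subset hΦ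
      rw [hflag] at h8
      have h9 := Finset.card_le_card hΦ
      rw [hflag] at h9
      rw [hp0 _ (by omega), om_apply]
      symm
      apply Finset.sum_eq_zero
      intro x hx
      have h10 := Finset.card_pos.2 ⟨x, hx⟩
      rw [hhat, if_neg, mul_zero]
      rw [Finset.card_erase_of_mem hx]
      omega
  rw [h5]
  simp [dp]

/-- The kernel of multiplication by the generic linear form in every degree but the middle one. -/
theorem off_middle_poly [Algebra (ZMod 2) k] [CharP k 2] {c : P → k}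
    (hc : AlgebraicIndependent (ZMod 2) c) (h0 : rk (⊥ : P) = 0) (ht : Thin P) {m : ℕ}
    (hm : rk (⊤ : P) = 2 * m + 1) (hreg : ∀ z : P, RegProp k z)
    {i : ℕ} (hi : i ≠ m) {p : MvPolynomial P k} (hp : p.IsHomogeneous i)
    (hmem : (∑ x : P, MvPolynomial.C (c x) * X x) * p ∈ JJ P k (Finset.range (2 * m + 2))) :
    ∃ q : MvPolynomial P k, q.IsHomogeneous (i - 1) ∧ (i = 0 → q = 0) ∧
      p - (∑ x : P, MvPolynomial.C (c x) * X x) * q ∈ JJ P k (Finset.range (2 * m + 2)) := by
  have hp0 : ∀ F : Finset P, F.card ≠ i → hat p F = 0 := by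
    intro F hF
    simp only [hat]
    apply hp.coeff_eq_zero
    rw [degree_mon]
    exact hF
  have hflag : ∀ Φ : Fl (⊤ : P), Φ.1.card = 2 * m := by
    intro Φ
    have := Φ.2.card
    omega
  have h1 : nu (⊤ : P) (om c (hat p)) = 0 := by
    apply eq_zero_of_dp
    intro p'
    rw [← dp_nu, dp_comm, ← hat_om]
    exact dp_hat_JJ hmem (nu_mem h0 ht p')
  have h3 : dd c (nu (⊤ : P) (hat p)) = 0 := by rw [← nu_om, h1]
  rcases lt_or_gt_of_ne hi with hi' | hi'
  · have h2 : Ge (m + 1) (nu (⊤ : P) (hat p)) := by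
      intro G hG
      rw [nu_apply]
      apply Finset.sum_eq_zero
      intro Φ hΦ
      simp only [Finset.mem_filter, Finset.mem_univ, true_and] at hΦ
      apply hp0
      rw [Finset.card_sdiff_of_subset hΦ, hflag]
      omega
    obtain ⟨g, gZ, gd⟩ := upper_top hc h0 ht hreg hm (nu (⊤ : P) (hat p)) (nu_mem h0 ht _) h2 h3
    exact poly_of_dual h0 ht hm (hreg ⊤) hp gZ gd
  · have h2 : ∀ G : Finset P, m ≤ G.card → nu (⊤ : P) (hat p) G = 0 := by
      intro G hG
      rw [nu_apply]
      apply Finset.sum_eq_zero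
      intro Φ hΦ
      simp only [Finset.mem_filter, Finset.mem_univ, true_and] at hΦ
      apply hp0
      rw [Finset.card_sdiff_of_subset hΦ, hflag]
      omega
    obtain ⟨g, gZ, gd⟩ := lower_top hc h0 ht hreg hm (nu (⊤ : P) (hat p)) (nu_mem h0 ht _) h2 h3
    exact poly_of_dual h0 ht hm (hreg ⊤) hp gZ gd

/-- Homogeneous polynomials of degree larger than the number of inner ranks vanish in `R`. -/
theorem big_degree {m i : ℕ} (h0 : rk (⊥ : P) = 0) (hm : rk (⊤ : P) = 2 * m + 1)
    (hi : 2 * m < i) {p : MvPolynomial P k} (hp : p.IsHomogeneous i) :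
    p ∈ JJ P k (Finset.range (2 * m + 2)) := by
  apply mem_JJ_of_dp h0 (by omega)
  intro f hf
  rw [dp]
  apply Finset.sum_eq_zero
  intro F _
  by_cases hF : IsCh (⊤ : P) F
  · have h1 : hat p F = 0 := by
      simp only [hat]
      apply hp.coeff_eq_zero
      rw [degree_mon]
      have h2 := hF.card_ty
      have h3 := Finset.card_le_card hF.ty_subset
      rw [Nat.card_Ioo] at h3
      omega
    rw [h1, zero_mul]
  · rw [hf.1 F hF, mul_zero]

end Pool.Agent.Lib.MP_5bb951_co
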